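import Pool.Agent.V11198.Tri

/-!
# MP_f4450d_co: triangle expansions off a long circuit

Let `C` be a circuit of a bridgeless cubic graph `G` such that the components of `G - V(C)` have at
most sixteen vertices.  By `Pool.Agent.V11198.Six.five_cubic` there are even subgraphs
`X_0, ..., X_3` which cover every edge of `C` exactly once and every other edge exactly twice.  Let
`U` be the set of the vertices off `C`.  In `G_U`, the complement of `X_i Δ C`, completed in the
triangles, is a perfect matching for every `i`, and the four perfect matchings cover `G_U`.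
-/

set_option autoImplicit false

open Finset

namespace Pool.Agent.Results.MP_f4450d_co.LongCircuit

open Pool.Agent.Helper347.Sab
open Pool.Agent.V11198.Tri (TriangleEdge corner expand IsPM CoverableByFour)

variable {V E : Type} [Fintype V] [DecidableEq V] [Fintype E] [DecidableEq E]

/-- The vertex `v` is not a vertex of the circuit `C`. -/
def Off (G : MGraph V E) (C : Finset E) (v : V) : Prop := dg G C v = 0

/-- There is a path from `a` to `b` in the graph `G - V(C)` (all of its vertices are off `C`). -/
def PathOff (G : MGraph V E) (C : Finset E) (a b : V) : Prop :=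
  Relation.ReflTransGen (fun x y => Off G C x ∧ Off G C y ∧ ∃ e, G.ends e = s(x, y)) a b

/-- The edges that leave the vertex set `X`. -/
def leaving (G : MGraph V E) (X : Finset V) : Set E := {e | ∃ a ∈ X, ∃ b ∉ X, G.ends e = s(a, b)}

/-- Let `G` be a cubic graph every edge of which lies in a circuit and let `C` be a circuit of `G`.
Suppose that every component of `G - V(C)` has at most sixteen vertices, and that no set of at least
nine vertices of such a component is left by exactly three edges of `G`. Let `U` be the set of the
vertices off `C`. Then `G_U` is coverable by four perfect matchings, that is,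
`T(G) ≤ |V(G)| - |C|`. If `C` has at least `9/10 |V(G)|` vertices, then `|U| ≤ |V(G)| / 10`. -/
theorem result {V E : Type} [Fintype V] [DecidableEq V] [Fintype E] [DecidableEq E]
    (G : MGraph V E) (hG : IsCubic G) (hb : ∀ e, ∃ D, IsCircuit G D ∧ e ∈ D)
    (C : Finset E) (hC : IsCircuit G C)
    (h16 : ∀ v, Off G C v → ({w | PathOff G C v w} : Set V).ncard ≤ 16)
    (h3 : ∀ (v : V) (X : Finset V), Off G C v → (∀ w ∈ X, PathOff G C v w) →
      9 ≤ X.card → (leaving G X).ncard ≠ 3) :
    ∃ U : Finset V, (∀ v, v ∈ U ↔ Off G C v) ∧ U.card + C.card = Fintype.card V ∧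
      CoverableByFour (expand G U) ∧
      (9 * Fintype.card V ≤ 10 * C.card → 10 * U.card ≤ Fintype.card V) := by
  classical
  obtain ⟨D, hD, hD0, hD2⟩ := Pool.Agent.V11198.Six.five_cubic G hG hb C hC h16 h3
  have hcount : ∀ e, (if e ∈ C then 1 else 0) +
      (univ.filter fun i : Fin 4 => e ∈ D i.succ).card = 2 := by
    intro e
    have h4 := hD2 e
    rw [card_filter, Fin.sum_univ_succ, hD0] at h4
    rw [card_filter]
    exact h4
  have hcard : (univ.filter fun v => dg G C v = 0).card + C.card = Fintype.card V := by
    have h8 := Finset.card_filter_add_card_filter_not (s := (univ : Finset V))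
      (fun v => dg G C v ≠ 0)
    rw [← Pool.Agent.V11198.Six.card_circuit G C hC.2.1, card_univ] at h8
    have h9 : (univ.filter fun v => dg G C v = 0) = univ.filter fun v => ¬ dg G C v ≠ 0 := by
      ext v; simp
    rw [h9]
    omega
  refine ⟨univ.filter fun v => dg G C v = 0, fun v => ?_, hcard, ?_, fun h => by omega⟩
  · rw [mem_filter]
    exact ⟨fun h => h.2, fun h => ⟨mem_univ _, h⟩⟩
  · apply Pool.Agent.V11198.Tri.coverable G hG C hC (fun i => D i.succ) (fun i => hD i.succ)
    · intro e he
      have := hcount e
      rw [if_pos he] at this
      omega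
    · intro e he
      have := hcount e
      rw [if_neg he] at this
      omega
    · intro v
      rw [mem_filter]
      exact ⟨fun h => h.2, fun h => ⟨mem_univ _, h⟩⟩

end Pool.Agent.Results.MP_f4450d_co.LongCircuit
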